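import Mathlib
import Pool.Agent.H.MP_c74059_gt.A

set_option autoImplicit false

namespace Pool.Agent.H.MP_5382b1_gt

open Set Filter Topology Cardinal

abbrev V : Type := ℕ → ZMod 2

theorem two (x : V) : x + x = 0 := by
  funext n
  have : ∀ a : ZMod 2, a + a = 0 := by decide
  exact this _

theorem cantor_scheme {Y : Type} [TopologicalSpace Y] [CompactSpace Y] [T2Space Y] (K O : Set Y)
    (hK : IsClosed K) (hO : IsOpen O) (hne : (O ∩ K).Nonempty) (R : ℕ → Set (Y × Y))
    (hR : ∀ n, IsOpen (R n))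
    (h : ∀ n U, IsOpen U → U ⊆ O → (U ∩ K).Nonempty → ∃ p ∈ U ∩ K, ∃ q ∈ U ∩ K, (p, q) ∈ R n) :
    ∃ p : (ℕ → Bool) → Y, (∀ b, p b ∈ K ∧ ∀ n, ∃ q, (p b, q) ∈ R n ∨ (q, p b) ∈ R n) ∧
      ∀ b b', b ≠ b' → ∃ n, (p b, p b') ∈ R n ∨ (p b', p b) ∈ R n := by
  classical
  have h1 : ∀ (n : ℕ) (U : Set Y), ∃ W : Bool → Set Y, IsOpen U ∧ U ⊆ O ∧ (U ∩ K).Nonempty →
      (∀ i, IsOpen (W i) ∧ closure (W i) ⊆ U ∧ (W i ∩ K).Nonempty) ∧
        ∀ p ∈ closure (W false), ∀ q ∈ closure (W true), (p, q) ∈ R n := by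
    intro n U
    by_cases hU : IsOpen U ∧ U ⊆ O ∧ (U ∩ K).Nonempty
    · obtain ⟨p, hp, q, hq, hpq⟩ := h n U hU.1 hU.2.1 hU.2.2
      obtain ⟨A, hA, B, hB, hAB⟩ := mem_nhds_prod_iff.1 ((hR n).mem_nhds hpq)
      obtain ⟨A', hA1, hA2, hA3⟩ := exists_mem_nhds_isClosed_subset
        (inter_mem hA (hU.1.mem_nhds hp.1))
      obtain ⟨B', hB1, hB2, hB3⟩ := exists_mem_nhds_isClosed_subset
        (inter_mem hB (hU.1.mem_nhds hq.1))
      have e1 : closure (interior A') ⊆ A ∩ U := (closure_minimal interior_subset hA2).trans hA3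
      have e2 : closure (interior B') ⊆ B ∩ U := (closure_minimal interior_subset hB2).trans hB3
      refine ⟨fun i => if i then interior B' else interior A', fun _ => ⟨fun i => ?_,
        fun x hx y hy => hAB ⟨(e1 hx).1, (e2 hy).1⟩⟩⟩
      cases i
      · exact ⟨isOpen_interior, e1.trans inter_subset_right, p, mem_interior_iff_mem_nhds.2 hA1, hp.2⟩
      · exact ⟨isOpen_interior, e2.trans inter_subset_right, q, mem_interior_iff_mem_nhds.2 hB1, hq.2⟩
    · exact ⟨fun _ => U, fun h => absurd h hU⟩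
  choose W hW using h1
  let U : (ℕ → Bool) → ℕ → Set Y := fun b n => Nat.rec O (fun m S => W m S (b m)) n
  have hU : ∀ b n, IsOpen (U b n) ∧ U b n ⊆ O ∧ (U b n ∩ K).Nonempty := by
    intro b n
    induction n with
    | zero => exact ⟨hO, subset_rfl, hne⟩
    | succ n ih =>
      have := (hW n _ ih).1 (b n)
      exact ⟨this.1, subset_closure.trans (this.2.1.trans ih.2.1), this.2.2⟩
  have h2 : ∀ b, (⋂ n, closure (U b (n + 1)) ∩ K).Nonempty := by
    intro b
    refine IsCompact.nonempty_iInter_of_sequence_nonempty_isCompact_isClosed _ (fun n => ?_)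
      (fun n => (hU b (n + 1)).2.2.mono (inter_subset_inter_left _ subset_closure))
      (isClosed_closure.inter hK).isCompact fun n => isClosed_closure.inter hK
    exact inter_subset_inter_left _ (((hW _ _ (hU b (n + 1))).1 _).2.1.trans subset_closure)
  choose p hp using h2
  have hp' : ∀ b n, p b ∈ closure (W n (U b n) (b n)) := fun b n => (mem_iInter.1 (hp b) n).1
  refine ⟨p, fun b => ⟨(mem_iInter.1 (hp b) 0).2, fun n => ?_⟩, fun b b' hb => ?_⟩
  · have h3 := hp' b n
    obtain ⟨h4, h5⟩ := hW n _ (hU b n)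
    cases hb : b n
    · rw [hb] at h3
      obtain ⟨q, hq, -⟩ := (h4 true).2.2
      exact ⟨q, Or.inl (h5 _ h3 _ (subset_closure hq))⟩
    · rw [hb] at h3
      obtain ⟨q, hq, -⟩ := (h4 false).2.2
      exact ⟨q, Or.inr (h5 _ (subset_closure hq) _ h3)⟩
  · have hex : ∃ n, b n ≠ b' n := Function.ne_iff.1 hb
    have h3 : ∀ n ≤ Nat.find hex, U b n = U b' n := by
      intro n hn
      induction n with
      | zero => rfl
      | succ n ih =>
        change W n (U b n) (b n) = W n (U b' n) (b' n)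
        rw [ih (Nat.le_of_succ_le hn), not_not.1 (Nat.find_min hex hn)]
    have h4 := hp' b (Nat.find hex)
    have h5 := hp' b' (Nat.find hex)
    rw [← h3 _ le_rfl] at h5
    have h6 := (hW (Nat.find hex) _ (hU b (Nat.find hex))).2
    have h7 := Nat.find_spec hex
    refine ⟨Nat.find hex, ?_⟩
    cases hb1 : b (Nat.find hex) <;> cases hb2 : b' (Nat.find hex) <;>
      rw [hb1] at h4 h7 <;> rw [hb2] at h5 h7
    · exact absurd rfl h7
    · exact Or.inl (h6 _ h4 _ h5)
    · exact Or.inr (h6 _ h5 _ h4)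
    · exact absurd rfl h7

theorem big (K O : Set (V × V)) (hK : IsClosed K) (hO : IsOpen O) (hne : (O ∩ K).Nonempty)
    (F : ℕ → Set (V × V)) (hF : ∀ n, IsClosed (F n))
    (h : ∀ n U, IsOpen U → U ⊆ O → (U ∩ K).Nonempty → ∃ p ∈ U ∩ K, ∃ q ∈ U ∩ K,
      p ∉ F n ∧ q ∉ F n ∧ p.1 ≠ q.1 ∧ p.2 ≠ q.2 ∧ p.1 + p.2 ≠ q.1 + q.2)
    (B : Set V) (hB : #B < 𝔠) :
    ∃ p ∈ K \ ⋃ n, F n, p.1 ∉ B ∧ p.2 ∉ B ∧ p.1 + p.2 ∉ B := by
  obtain ⟨p, h1, h2⟩ := cantor_scheme K O hK hO hne (fun n => {z | z.1 ∉ F n ∧ z.2 ∉ F n ∧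
      z.1.1 ≠ z.2.1 ∧ z.1.2 ≠ z.2.2 ∧ z.1.1 + z.1.2 ≠ z.2.1 + z.2.2}) (fun n =>
    ((hF n).isOpen_compl.preimage continuous_fst).inter
      (((hF n).isOpen_compl.preimage continuous_snd).inter
        ((isOpen_ne_fun (by fun_prop) (by fun_prop)).inter
          ((isOpen_ne_fun (by fun_prop) (by fun_prop)).inter
            (isOpen_ne_fun (by fun_prop) (by fun_prop)))))) h
  by_contra hc
  push Not at hc
  have h3 : ∀ φ : V × V → V, (∀ b b', b ≠ b' → φ (p b) ≠ φ (p b')) →
      #((fun b => φ (p b)) ⁻¹' B) < 𝔠 := fun φ hφ =>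
    (mk_preimage_of_injective _ _ fun b b' hb => by_contra fun h => hφ b b' h hb).trans_lt hB
  have h4 := h3 Prod.fst fun b b' hb => by
    obtain ⟨n, h | h⟩ := h2 b b' hb
    exacts [h.2.2.1, h.2.2.1.symm]
  have h5 := h3 Prod.snd fun b b' hb => by
    obtain ⟨n, h | h⟩ := h2 b b' hb
    exacts [h.2.2.2.1, h.2.2.2.1.symm]
  have h6 := h3 (fun z => z.1 + z.2) fun b b' hb => by
    obtain ⟨n, h | h⟩ := h2 b b' hb
    exacts [h.2.2.2.2, h.2.2.2.2.symm]
  have h7 : (univ : Set (ℕ → Bool)) ⊆ ((fun b => (p b).1) ⁻¹' B ∪ (fun b => (p b).2) ⁻¹' B) ∪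
      (fun b => (p b).1 + (p b).2) ⁻¹' B := by
    intro b _
    by_contra h8
    simp only [mem_union, mem_preimage, not_or] at h8
    refine h8.2 (hc (p b) ⟨(h1 b).1, fun h9 => ?_⟩ h8.1.1 h8.1.2)
    obtain ⟨n, hn⟩ := mem_iUnion.1 h9
    obtain ⟨q, h | h⟩ := (h1 b).2 n
    exacts [h.1 hn, h.2.1 hn]
  have h8 := (mk_le_mk_of_subset h7).trans_lt ((mk_union_le _ _).trans_lt
    (add_lt_of_lt aleph0_le_continuum ((mk_union_le _ _).trans_lt
      (add_lt_of_lt aleph0_le_continuum h4 h5)) h6))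
  simp at h8

theorem card_cl (S : Set V) : #(AddSubmonoid.closure S) ≤ max ℵ₀ #S := by
  refine le_trans ?_ (mk_list_le_max S)
  refine mk_le_of_surjective (f := fun l : List S => ⟨(l.map Subtype.val).sum,
    list_sum_mem fun x hx => ?_⟩) fun x => ?_
  · obtain ⟨y, -, rfl⟩ := List.mem_map.1 hx
    exact AddSubmonoid.subset_closure y.2
  · obtain ⟨l, h1, h2⟩ := AddSubmonoid.exists_list_of_mem_closure x.2
    refine ⟨l.pmap (fun y hy => (⟨y, hy⟩ : S)) h1, Subtype.ext ?_⟩
    simp [List.map_pmap, h2]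

theorem cl_insert {S : Set V} {x y : V} (h : y ∈ AddSubmonoid.closure (insert x S)) :
    y ∈ AddSubmonoid.closure S ∨ y + x ∈ AddSubmonoid.closure S := by
  induction h using AddSubmonoid.closure_induction with
  | mem z hz =>
    rcases hz with rfl | hz
    · exact Or.inr (by rw [two]; exact zero_mem _)
    · exact Or.inl (AddSubmonoid.subset_closure hz)
  | zero => exact Or.inl (zero_mem _)
  | add a b _ _ ha hb =>
    rcases ha with ha | ha <;> rcases hb with hb | hb
    · exact Or.inl (add_mem ha hb)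
    · exact Or.inr (by rw [add_assoc]; exact add_mem ha hb)
    · exact Or.inr (by rw [add_right_comm]; exact add_mem ha hb)
    · refine Or.inl ?_
      have := add_mem ha hb
      rwa [add_add_add_comm, two, add_zero] at this

def xs {I : Type} (f : I → Option (V × V)) (J : Set I) : Set V :=
  {x | ∃ u ∈ J, ∃ y, f u = some (x, y)}

def ys {I : Type} (f : I → Option (V × V)) (J : Set I) : Set V :=
  {y | ∃ u ∈ J, ∃ x, f u = some (x, y)}

theorem build {ι : Type} (hι : #ι ≤ 𝔠) [Nonempty ι] (Γ : ι → Set (V × V)) (W C : Set V)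
    (hW : W.Countable) (hC : C.Countable) (h0 : 0 ∉ W) :
    ∃ H : AddSubmonoid V, (∀ w ∈ W, w ∉ H) ∧ ∀ i, (∃ p ∈ Γ i, p.1 ∈ H ∧ p.2 ∉ H ∧ p.2 ∉ C) ∨
      ∃ B : Set V, #B < 𝔠 ∧ ∀ p ∈ Γ i, p.1 ∈ B ∨ p.2 ∈ B ∨ p.1 + p.2 ∈ B := by
  classical
  let I := (𝔠 : Cardinal.{0}).ord.ToType
  have hI : #I = 𝔠 := mk_ord_toType _
  obtain ⟨j⟩ := (Cardinal.le_def _ _).1 (hι.trans hI.ge)
  let e := Function.invFun j
  have he : ∀ i, e (j i) = i := Function.leftInverse_invFun j.injective
  let ok : I → (I → Option (V × V)) → V × V → Prop := fun t f p => p ∈ Γ (e t) ∧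
    (∀ h ∈ AddSubmonoid.closure (xs f (Iio t)), h + p.1 ∉ W ∪ ys f (Iio t)) ∧
    p.2 ∉ AddSubmonoid.closure (xs f (Iio t)) ∧
    p.2 + p.1 ∉ AddSubmonoid.closure (xs f (Iio t)) ∧ p.2 ∉ C
  obtain ⟨f, hf⟩ := Pool.Agent.H.MP_c74059_gt.wf_choice (I := I) (A := Option (V × V))
    (fun t f a => (∀ p, a = some p → ok t f p) ∧ (a = none → ∀ p, ¬ ok t f p))
    (fun t f g a h hP => by
      have e1 : xs f (Iio t) = xs g (Iio t) := by
        ext x
        exact exists_congr fun u => and_congr_right fun hu => by rw [h u hu]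
      have e2 : ys f (Iio t) = ys g (Iio t) := by
        ext x
        exact exists_congr fun u => and_congr_right fun hu => by rw [h u hu]
      simpa only [ok, e1, e2] using hP)
    (fun t f _ => by
      by_cases h : ∃ p, ok t f p
      · obtain ⟨p, hp⟩ := h
        exact ⟨some p, fun q hq => by cases hq; exact hp, fun h => by cases h⟩
      · exact ⟨none, fun q hq => (by cases hq), fun _ p hp => h ⟨p, hp⟩⟩)
  have mx : ∀ J J', J ⊆ J' → AddSubmonoid.closure (xs f J) ≤ AddSubmonoid.closure (xs f J') :=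
    fun J J' h => AddSubmonoid.closure_mono fun x ⟨u, hu, hx⟩ => ⟨u, h hu, hx⟩
  have my : ∀ J J', J ⊆ J' → W ∪ ys f J ⊆ W ∪ ys f J' :=
    fun J J' h => union_subset_union_right _ fun x ⟨u, hu, hx⟩ => ⟨u, h hu, hx⟩
  have h1 : ∀ T : Finset I, ∀ z ∈ AddSubmonoid.closure (xs f T), z ∉ W ∪ ys f T := by
    intro T
    induction T using Finset.induction_on_max with
    | empty =>
      intro z hz
      have : xs f (∅ : Finset I) = ∅ := by ext; simp [xs]
      rw [this, AddSubmonoid.closure_empty, AddSubmonoid.mem_bot] at hz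
      subst hz
      simpa [ys] using h0
    | insert a T ha ih =>
      have hT : (T : Set I) ⊆ Iio a := fun u hu => ha u hu
      intro z hz hz'
      cases hfa : f a with
      | none =>
        refine ih z (AddSubmonoid.closure_mono ?_ hz) (hz'.imp_right ?_)
        · rintro x ⟨u, hu, y, hx⟩
          rcases Finset.mem_insert.1 hu with rfl | hu
          · rw [hfa] at hx; cases hx
          · exact ⟨u, hu, y, hx⟩
        · rintro ⟨u, hu, y, hx⟩
          rcases Finset.mem_insert.1 hu with rfl | hu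
          · rw [hfa] at hx; cases hx
          · exact ⟨u, hu, y, hx⟩
      | some p =>
        obtain ⟨-, k1, k2, k3, -⟩ := (hf a).1 p hfa
        have h2 : z ∈ AddSubmonoid.closure (insert p.1 (xs f T)) := by
          refine AddSubmonoid.closure_mono ?_ hz
          rintro x ⟨u, hu, y, hx⟩
          rcases Finset.mem_insert.1 hu with rfl | hu
          · rw [hfa] at hx; cases hx; exact Or.inl rfl
          · exact Or.inr ⟨u, hu, y, hx⟩
        have h3 : z = p.2 ∨ z ∈ W ∪ ys f T := by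
          rcases hz' with h | ⟨u, hu, y, hx⟩
          · exact Or.inr (Or.inl h)
          · rcases Finset.mem_insert.1 hu with rfl | hu
            · rw [hfa] at hx; cases hx; exact Or.inl rfl
            · exact Or.inr (Or.inr ⟨u, hu, y, hx⟩)
        rcases cl_insert h2 with h4 | h4 <;> rcases h3 with h3 | h3
        · exact k2 (h3 ▸ mx _ _ hT h4)
        · exact ih z h4 h3
        · exact k3 (h3 ▸ mx _ _ hT h4)
        · refine k1 _ (mx _ _ hT h4) ?_
          rw [add_assoc, two, add_zero]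
          exact my _ _ hT h3
  have h2 : ∀ z ∈ AddSubmonoid.closure (xs f univ), ∃ T : Finset I,
      z ∈ AddSubmonoid.closure (xs f T) := by
    intro z hz
    induction hz using AddSubmonoid.closure_induction with
    | mem x hx =>
      obtain ⟨u, -, y, hx⟩ := hx
      exact ⟨{u}, AddSubmonoid.subset_closure ⟨u, by simp, y, hx⟩⟩
    | zero => exact ⟨∅, zero_mem _⟩
    | add a b _ _ ha hb =>
      obtain ⟨S, hS⟩ := ha
      obtain ⟨T, hT⟩ := hb
      exact ⟨S ∪ T, add_mem (mx _ _ (by simp) hS) (mx _ _ (by simp) hT)⟩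
  refine ⟨AddSubmonoid.closure (xs f univ), fun w hw h => ?_, fun i => ?_⟩
  · obtain ⟨T, hT⟩ := h2 w h
    exact h1 T w hT (Or.inl hw)
  · cases hfa : f (j i) with
    | some p =>
      obtain ⟨k0, -, -, -, k4⟩ := (hf _).1 p hfa
      rw [he] at k0
      refine Or.inl ⟨p, k0, AddSubmonoid.subset_closure ⟨_, trivial, p.2, hfa⟩, fun h => ?_, k4⟩
      obtain ⟨T, hT⟩ := h2 _ h
      exact h1 (insert (j i) T) _ (mx _ _ (by simp) hT) (Or.inr ⟨j i, by simp, p.1, hfa⟩)
    | none =>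
      have hlt : #(Iio (j i)) < 𝔠 := by
        have := mk_Iio_lt (j i) (by rw [hI]; simp [I])
        rwa [hI] at this
      have c0 : ∀ S : Set V, S.Countable → #S < 𝔠 := fun S hS =>
        (le_aleph0_iff_set_countable.2 hS).trans_lt aleph0_lt_continuum
      have c1 : ∀ φ : V × V → V, #((fun u => φ ((f u).getD 0)) '' Iio (j i)) < 𝔠 := fun φ =>
        mk_image_le.trans_lt hlt
      have c2 : #(AddSubmonoid.closure (xs f (Iio (j i)))) < 𝔠 := by
        refine (card_cl _).trans_lt (max_lt aleph0_lt_continuum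
          ((mk_le_mk_of_subset ?_).trans_lt (c1 Prod.fst)))
        rintro x ⟨u, hu, y, hx⟩
        exact ⟨u, hu, by simp [hx]⟩
      have c3 : #(W ∪ ys f (Iio (j i)) : Set V) < 𝔠 := by
        refine (mk_union_le _ _).trans_lt (add_lt_of_lt aleph0_le_continuum (c0 W hW)
          ((mk_le_mk_of_subset ?_).trans_lt (c1 Prod.snd)))
        rintro x ⟨u, hu, y, hx⟩
        exact ⟨u, hu, by simp [hx]⟩
      refine Or.inr ⟨(image2 (· + ·) (AddSubmonoid.closure (xs f (Iio (j i))) : Set V)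
        (W ∪ ys f (Iio (j i))) ∪ (AddSubmonoid.closure (xs f (Iio (j i))) : Set V)) ∪ C, ?_,
        fun p hp => ?_⟩
      · refine (mk_union_le _ _).trans_lt (add_lt_of_lt aleph0_le_continuum
          ((mk_union_le _ _).trans_lt (add_lt_of_lt aleph0_le_continuum
            (mk_image2_le.trans_lt (mul_lt_of_lt aleph0_le_continuum c2 c3)) c2)) (c0 C hC))
      · by_contra hc
        simp only [mem_union, not_or] at hc
        refine (hf _).2 hfa p ⟨by rwa [he], fun h hh h' => hc.1.1.1 ⟨h, hh, _, h', ?_⟩,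
          hc.2.1.1.2, fun h => hc.2.2.1.2 (add_comm p.1 p.2 ▸ h), hc.2.1.2⟩
        simp only [← add_assoc, two, zero_add]

end Pool.Agent.H.MP_5382b1_gt
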