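import Mathlib
import Pool.Agent.H.MP_5382b1_gt.A

set_option autoImplicit false

namespace Pool.Agent.H.MP_5382b1_gt

open Set Filter Topology Cardinal TopologicalSpace

theorem two_pts (U : Set V) (hU : IsOpen U) (hne : U.Nonempty) (F : Set V) (hF : IsClosed F)
    (hF' : interior F = ∅) : ∃ x ∈ U, x ∉ F := by
  by_contra h
  push Not at h
  have := interior_maximal h hU
  rw [hF'] at this
  exact hne.ne_empty (subset_empty_iff.1 this)

theorem int_single (x : V) : interior ({x} : Set V) = ∅ := by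
  rw [eq_empty_iff_forall_notMem]
  intro y hy
  have h1 : y = x := mem_singleton_iff.1 (interior_subset hy)
  subst h1
  have h2 : Tendsto (fun n : ℕ => Function.update y n (y n + 1)) atTop (𝓝 y) := by
    rw [tendsto_pi_nhds]
    intro m
    refine tendsto_const_nhds.congr' ?_
    filter_upwards [eventually_gt_atTop m] with n hn
    rw [Function.update_of_ne hn.ne]
  obtain ⟨n, hn⟩ := (h2.eventually (mem_interior_iff_mem_nhds.1 hy)).exists
  have h3 := congrFun hn n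
  simp at h3

theorem core : ∃ (H : AddSubmonoid V) (c : ℕ → V),
    (∀ U : Set V, IsOpen U → U.Nonempty → ∀ F : ℕ → Set V, (∀ n, IsClosed (F n)) →
      (∀ n, interior (F n) = ∅) → ∃ x ∈ U, x ∈ H ∧ ∀ n, x ∉ F n) ∧
    ∀ (O : Set ↥((H : Set V) ∪ range c)) (h : ↥((H : Set V) ∪ range c) → V), IsOpen O →
      ContinuousOn h O → InjOn h O →
      (∀ x ∈ O, h x ∈ (H : Set V) ∪ range c ∧ h x ≠ x.1) → O = ∅ := by
  classical
  obtain ⟨b, hb⟩ := exists_seq_basis (V × V)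
  let K : Set ℕ → Set (V × V) := fun A => (⋃ n ∈ A, b n)ᶜ
  have hK : ∀ S : Set (V × V), IsClosed S → ∃ A, K A = S := by
    intro S hS
    refine ⟨{n | b n ⊆ Sᶜ}, compl_eq_comm.1 (Subset.antisymm (fun x hx => ?_) ?_)⟩
    · obtain ⟨_, ⟨n, rfl⟩, h1, h2⟩ := hb.exists_subset_of_mem_open hx hS.isOpen_compl
      exact mem_iUnion₂.2 ⟨n, h2, h1⟩
    · exact iUnion₂_subset fun n hn => hn
  obtain ⟨C0, hC0, hd0⟩ := exists_countable_dense V
  have hd : ∀ U : Set V, IsOpen U → U.Nonempty → ∃ x ∈ U, x ∈ C0 \ {0} := by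
    intro U hU hne
    obtain ⟨x, h1, h2⟩ := hd0.inter_open_nonempty (U \ {0}) (hU.sdiff isClosed_singleton)
      (two_pts U hU hne {0} isClosed_singleton (int_single 0))
    exact ⟨x, h1.1, h2, h1.2⟩
  obtain ⟨c, hc⟩ := (hC0.mono (sdiff_subset (t := {0}))).exists_eq_range (by
    obtain ⟨x, -, h⟩ := hd univ isOpen_univ univ_nonempty
    exact ⟨x, h⟩)
  rw [hc] at hd
  obtain ⟨H, hW0, hH⟩ := build (ι := Set ℕ × (ℕ → Set ℕ)) (by simp)
    (fun a => K a.1 \ ⋃ n, K (a.2 n))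
    (range c ∪ (image2 (· + ·) (range c) (range c) \ {0})) (range c)
    ((countable_range c).union (((countable_range c).image2 (countable_range c) _).mono sdiff_subset))
    (countable_range c) (by
      rintro (h | h)
      · rw [← hc] at h
        exact h.2 rfl
      · exact h.2 rfl)
  have key : ∀ (S O : Set (V × V)), IsClosed S → IsOpen O → (O ∩ S).Nonempty →
      ∀ F : ℕ → Set (V × V), (∀ n, IsClosed (F n)) →
      (∀ n U, IsOpen U → U ⊆ O → (U ∩ S).Nonempty → ∃ p ∈ U ∩ S, ∃ q ∈ U ∩ S,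
        p ∉ F n ∧ q ∉ F n ∧ p.1 ≠ q.1 ∧ p.2 ≠ q.2 ∧ p.1 + p.2 ≠ q.1 + q.2) →
      ∃ p ∈ S \ ⋃ n, F n, p.1 ∈ H ∧ p.2 ∉ H ∧ p.2 ∉ range c := by
    intro S O hS hO hne F hF h
    obtain ⟨A, rfl⟩ := hK S hS
    choose a ha using fun n => hK (F n) (hF n)
    have h1 := hH (A, a)
    simp only [ha] at h1
    refine h1.resolve_right ?_
    rintro ⟨B, hB, hB'⟩
    obtain ⟨p, h2, h3, h4, h5⟩ := big _ O hS hO hne F hF h B hB
    exact (hB' p h2).elim h3 fun h => h.elim h4 h5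
  have baire : ∀ U : Set V, IsOpen U → U.Nonempty → ∀ F : ℕ → Set V, (∀ n, IsClosed (F n)) →
      (∀ n, interior (F n) = ∅) → ∃ x ∈ U, x ∈ H ∧ ∀ n, x ∉ F n := by
    intro U hU hne F hF hF'
    obtain ⟨p, hp, h1, -⟩ := key univ (U ×ˢ Set.univ) isClosed_univ (hU.prod isOpen_univ)
      (by simpa using hne) (fun n => (Uᶜ ∪ F n) ×ˢ Set.univ)
      (fun n => (hU.isClosed_compl.union (hF n)).prod isClosed_univ) (by
        rintro n W hW hWU ⟨⟨x, y⟩, hxy, -⟩
        obtain ⟨A, B, hA, hB, hxA, hyB, hAB⟩ := isOpen_prod_iff.1 hW x y hxy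
        obtain ⟨x1, k1, k2⟩ := two_pts A hA ⟨x, hxA⟩ (F n) (hF n) (hF' n)
        obtain ⟨x2, k3, k4⟩ := two_pts (A \ F n) (hA.sdiff (hF n)) ⟨x1, k1, k2⟩ {x1}
          isClosed_singleton (int_single _)
        obtain ⟨y1, k5, k6⟩ := two_pts B hB ⟨y, hyB⟩ {y} isClosed_singleton (int_single _)
        obtain ⟨y2, k7, k8⟩ := two_pts (B \ {y}) (hB.sdiff isClosed_singleton) ⟨y1, k5, k6⟩
          {x1 + y + x2} isClosed_singleton (int_single _)
        have k9 : (x1, y) ∈ W := hAB ⟨k1, hyB⟩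
        have k10 : (x2, y2) ∈ W := hAB ⟨k3.1, k7.1⟩
        refine ⟨(x1, y), ⟨k9, trivial⟩, (x2, y2), ⟨k10, trivial⟩,
          fun h => h.1.elim (fun h => h (hWU k9).1) k2,
          fun h => h.1.elim (fun h => h (hWU k10).1) k3.2, Ne.symm k4, Ne.symm k7.2,
          fun h => k8 ?_⟩
        simp only at h
        rw [h, add_right_comm, two, zero_add]
        rfl)
    have h2 : ∀ n, p.1 ∉ Uᶜ ∪ F n := fun n h => hp.2 (mem_iUnion.2 ⟨n, h, trivial⟩)
    exact ⟨p.1, not_not.1 fun h => h2 0 (Or.inl h), h1, fun n h => h2 n (Or.inr h)⟩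
  refine ⟨H, c, baire, fun O h hO hcont hinj hmap => ?_⟩
  by_contra hne
  obtain ⟨x0, hx0⟩ := nonempty_iff_ne_empty.2 hne
  obtain ⟨U0, hU0, rfl⟩ := isOpen_induced_iff.1 hO
  obtain ⟨U1, k1, k2, k3⟩ := exists_mem_nhds_isClosed_subset (hU0.mem_nhds hx0)
  let O1 : Set ↥((H : Set V) ∪ range c) := Subtype.val ⁻¹' interior U1
  have hO1 : O1 ⊆ Subtype.val ⁻¹' U0 := fun x hx => k3 (interior_subset hx)
  let G : Set (V × V) := (fun x : ↥((H : Set V) ∪ range c) => (x.1, h x)) '' O1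
  obtain ⟨p, hp, h1, h2, h3⟩ := key (closure G) univ isClosed_closure isOpen_univ
    ⟨_, trivial, subset_closure ⟨x0, mem_interior_iff_mem_nhds.2 k1, rfl⟩⟩ (fun _ => ∅)
    (fun _ => isClosed_empty) (by
      rintro n W hW - ⟨z, hz1, hz2⟩
      obtain ⟨_, hz3, x, hx, rfl⟩ := mem_closure_iff.1 hz2 W hW hz1
      have l1 : ContinuousOn (fun x : ↥((H : Set V) ∪ range c) => (x.1, h x)) O1 :=
        continuous_subtype_val.continuousOn.prodMk (hcont.mono hO1)
      obtain ⟨U2, hU2, hU2'⟩ := isOpen_induced_iff.1 (l1.isOpen_inter_preimage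
        (isOpen_interior.preimage continuous_subtype_val) hW)
      have l2 : ∀ y : ↥((H : Set V) ∪ range c), y.1 ∈ U2 → y ∈ O1 ∧ (y.1, h y) ∈ W := fun y hy => by
        have : y ∈ Subtype.val ⁻¹' U2 := hy
        rwa [hU2'] at this
      have l3 : x.1 ∈ U2 := by
        have : x ∈ Subtype.val ⁻¹' U2 := by rw [hU2']; exact ⟨hx, hz3⟩
        exact this
      by_contra hcon
      have l4 : ∀ y : ↥((H : Set V) ∪ range c), y.1 ∈ U2 → h y = y.1 + (x.1 + h x) := by
        intro y hy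
        by_contra l5
        have l6 : x.1 + h x ≠ y.1 + h y := fun e => l5 (by rw [e, ← add_assoc, two, zero_add])
        have l7 : x ≠ y := fun e => l6 (by rw [e])
        exact hcon ⟨_, ⟨hz3, subset_closure ⟨x, hx, rfl⟩⟩, _,
          ⟨(l2 y hy).2, subset_closure ⟨y, (l2 y hy).1, rfl⟩⟩, id, id,
          fun e => l7 (Subtype.ext e), fun e => l7 (hinj (hO1 hx) (hO1 (l2 y hy).1) e), l6⟩
      have l5 : x.1 + h x ≠ 0 := fun e => (hmap x (hO1 hx)).2 (by rw [l4 x l3, e, add_zero])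
      generalize x.1 + h x = g at l4 l5
      have l6 : ∀ y ∈ U2, y ∈ (H : Set V) ∪ range c → y + g ∈ (H : Set V) ∪ range c :=
        fun y hy hy' => l4 ⟨y, hy'⟩ hy ▸ (hmap ⟨y, hy'⟩ (hO1 (l2 ⟨y, hy'⟩ hy).1)).1
      by_cases hg : g ∈ H
      · obtain ⟨y, hy, hyc⟩ := hd U2 hU2 ⟨_, l3⟩
        rcases l6 y hy (Or.inr hyc) with l7 | l7
        · have := add_mem l7 hg
          rw [add_assoc, two, add_zero] at this
          exact hW0 y (Or.inl hyc) this
        · exact hW0 g (Or.inr ⟨⟨y, hyc, _, l7, by simp only [← add_assoc, two, zero_add]⟩, l5⟩) hg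
      · obtain ⟨y, hy, hyH, -⟩ := baire U2 hU2 ⟨_, l3⟩ (fun _ => ∅) (fun _ => isClosed_empty)
          fun _ => interior_empty
        obtain ⟨y', hy', hyH', hyy⟩ := baire U2 hU2 ⟨_, l3⟩ (fun _ => {y})
          (fun _ => isClosed_singleton) fun _ => int_single y
        have l7 : ∀ y ∈ U2, y ∈ H → y + g ∈ range c := fun y hy hyH =>
          (l6 y hy (Or.inl hyH)).resolve_left fun l8 => hg (by
            have := add_mem hyH l8
            rwa [← add_assoc, two, zero_add] at this)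
        refine hW0 (y + y') (Or.inr ⟨⟨_, l7 y hy hyH, _, l7 y' hy' hyH', ?_⟩, fun e => hyy 0 ?_⟩)
          (add_mem hyH hyH')
        · simp only [add_add_add_comm y g y' g, two, add_zero]
        · have : y + (y + y') = y + 0 := congrArg (y + ·) e
          rwa [← add_assoc, two, zero_add, add_zero] at this)
  have h4 : p.1 ∈ U1 := by
    have : closure G ⊆ Prod.fst ⁻¹' U1 := closure_minimal (by
      rintro _ ⟨x, hx, rfl⟩
      exact interior_subset (s := U1) hx) (k2.preimage continuous_fst)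
    exact this hp.1
  let x : ↥((H : Set V) ∪ range c) := ⟨p.1, Or.inl h1⟩
  have h5 : h x = p.2 := by
    by_contra h6
    obtain ⟨A, B, hA, hB, hxA, hpB, hAB⟩ := t2_separation h6
    obtain ⟨U2, hU2, hU2'⟩ := isOpen_induced_iff.1 (hcont.isOpen_inter_preimage hO hA)
    have l3 : p.1 ∈ U2 := by
      have : x ∈ Subtype.val ⁻¹' U2 := by rw [hU2']; exact ⟨k3 h4, hxA⟩
      exact this
    obtain ⟨_, hz, y, hy, rfl⟩ := mem_closure_iff.1 hp.1 _ (hU2.prod hB) ⟨l3, hpB⟩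
    have l4 : y ∈ Subtype.val ⁻¹' U2 := hz.1
    rw [hU2'] at l4
    exact Set.disjoint_left.1 hAB l4.2 hz.2
  exact ((h5 ▸ (hmap x (k3 h4)).1 : p.2 ∈ (H : Set V) ∪ range c)).elim h2 h3

end Pool.Agent.H.MP_5382b1_gt
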