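import Mathlib
import Pool.Agent.H.MP_5382b1_gt.B

set_option autoImplicit false

namespace Pool.Agent.H.MP_5382b1_gt

open Set Filter Topology TopologicalSpace

theorem main : ∃ (X : Type) (_ : TopologicalSpace X), MetrizableSpace X ∧ SeparableSpace X ∧
    IsTopologicalBasis {U : Set X | IsClopen U} ∧ Nontrivial X ∧
    (∃ Y : ℕ → Set X, (⋃ n, Y n) = univ ∧ ∀ n, ∀ x y : Y n, ∃ e : Y n ≃ₜ Y n, e x = y) ∧
    (∀ e : X ≃ₜ X, ∀ x, e x = x) ∧
    ∀ Y : ℕ → Set X, (⋃ n, Y n) = univ → (∀ n, IsClosed (Y n)) →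
      ¬ ∀ n, ∀ x y : Y n, ∃ e : Y n ≃ₜ Y n, e x = y := by
  classical
  obtain ⟨H, c, hB, hR⟩ := core
  have tw : ∀ U : Set V, IsOpen U → U.Nonempty → ∃ x ∈ U, ∃ y ∈ U, x ∈ H ∧ y ∈ H ∧ x ≠ y := by
    intro U hU hne
    obtain ⟨y, hy, hyH, -⟩ := hB U hU hne (fun _ => ∅) (fun _ => isClosed_empty)
      fun _ => interior_empty
    obtain ⟨y', hy', hyH', hyy⟩ := hB U hU hne (fun _ => {y})
      (fun _ => isClosed_singleton) fun _ => int_single y
    exact ⟨y', hy', y, hy, hyH', hyH, hyy 0⟩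
  refine ⟨↥((H : Set V) ∪ range c), inferInstance, inferInstance, inferInstance, ?_, ?_, ?_,
    fun e x => ?_, fun Y hY hcl hh => ?_⟩
  · refine isTopologicalBasis_of_isOpen_of_nhds (fun U hU => hU.isOpen) fun x U hx hU => ?_
    obtain ⟨W, hW, rfl⟩ := isOpen_induced_iff.1 hU
    obtain ⟨S, h1, h2, h3⟩ := isTopologicalBasis_isClopen.exists_subset_of_mem_open
      (a := x.1) hx hW
    exact ⟨Subtype.val ⁻¹' S, IsClopen.preimage h1 continuous_subtype_val, h2, preimage_mono h3⟩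
  · obtain ⟨x, -, y, -, hx, hy, h⟩ := tw univ isOpen_univ univ_nonempty
    exact ⟨⟨x, Or.inl hx⟩, ⟨y, Or.inl hy⟩, fun e => h (congrArg Subtype.val e)⟩
  · refine ⟨fun n => Nat.casesOn n {x | x.1 ∈ H} fun m => {⟨c m, Or.inr (mem_range_self m)⟩},
      eq_univ_of_forall fun x => ?_, fun n => ?_⟩
    · rcases x with ⟨x, hx | ⟨m, rfl⟩⟩
      · exact mem_iUnion.2 ⟨0, hx⟩
      · exact mem_iUnion.2 ⟨m + 1, rfl⟩
    · cases n with
      | zero =>
        intro x y
        have hg : x.1.1 + y.1.1 ∈ H := add_mem x.2 y.2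
        let f : {x : ↥((H : Set V) ∪ range c) | x.1 ∈ H} →
            {x : ↥((H : Set V) ∪ range c) | x.1 ∈ H} := fun z =>
          ⟨⟨z.1.1 + (x.1.1 + y.1.1), Or.inl (add_mem z.2 hg)⟩, add_mem z.2 hg⟩
        have h1 : ∀ z, f (f z) = z := fun z => Subtype.ext (Subtype.ext (by
          simp only [f, add_assoc z.1.1, two, add_zero]))
        have h2 : Continuous f := by
          refine Continuous.subtype_mk (Continuous.subtype_mk ?_ _) _
          fun_prop
        exact ⟨⟨⟨f, f, h1, h1⟩, h2, h2⟩, Subtype.ext (Subtype.ext (by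
          change x.1.1 + (x.1.1 + y.1.1) = y.1.1
          rw [← add_assoc, two, zero_add]))⟩
      | succ m => exact fun x y => ⟨Homeomorph.refl _, Subtype.ext (x.2.trans y.2.symm)⟩
  · by_contra h
    have := hR {x | e x ≠ x} (fun x => (e x).1) (isOpen_ne_fun e.continuous continuous_id)
      (continuous_subtype_val.comp e.continuous).continuousOn
      (fun a _ b _ h => e.injective (Subtype.ext h))
      fun x hx => ⟨(e x).2, fun h => hx (Subtype.ext h)⟩
    exact (this ▸ h : x ∈ (∅ : Set _))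
  · choose F hF hF' using fun n => isClosed_induced_iff.1 (hcl n)
    obtain ⟨n, hn⟩ : ∃ n, interior (F n) ≠ ∅ := by
      by_contra h
      push Not at h
      obtain ⟨x, -, hx, hx'⟩ := hB univ isOpen_univ univ_nonempty F hF h
      obtain ⟨n, hn⟩ := mem_iUnion.1 (hY ▸ mem_univ (⟨x, Or.inl hx⟩ : ↥((H : Set V) ∪ range c)))
      rw [← hF'] at hn
      exact hx' n hn
    obtain ⟨x, hx, y, hy, hxH, hyH, hxy⟩ := tw _ isOpen_interior (nonempty_iff_ne_empty.2 hn)
    have h1 : ∀ z : ↥((H : Set V) ∪ range c), z.1 ∈ interior (F n) → z ∈ Y n := fun z hz => by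
      rw [← hF']
      exact interior_subset (s := F n) hz
    obtain ⟨e, he⟩ := hh n ⟨⟨x, Or.inl hxH⟩, h1 _ hx⟩ ⟨⟨y, Or.inl hyH⟩, h1 _ hy⟩
    let h : ↥((H : Set V) ∪ range c) → V := fun z => if hz : z ∈ Y n then (e ⟨z, hz⟩).1.1 else 0
    have h2 : ∀ z : Y n, h z.1 = (e z).1.1 := fun z => dif_pos z.2
    have h3 : ContinuousOn h (Y n) := by
      rw [continuousOn_iff_continuous_restrict]
      exact (continuous_subtype_val.comp (continuous_subtype_val.comp e.continuous)).congr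
        fun z => (h2 z).symm
    have h4 : IsOpen (Subtype.val ⁻¹' interior (F n) ∩
        (fun z : ↥((H : Set V) ∪ range c) => (h z, z.1)) ⁻¹' {p | p.1 ≠ p.2}) :=
      ((h3.mono h1).prodMk continuous_subtype_val.continuousOn).isOpen_inter_preimage
        (isOpen_interior.preimage continuous_subtype_val)
        (isOpen_ne_fun continuous_fst continuous_snd)
    have h5 := hR _ h h4 (h3.mono fun z hz => h1 z hz.1) (fun a ha b hb hab => by
      rw [h2 ⟨a, h1 a ha.1⟩, h2 ⟨b, h1 b hb.1⟩] at hab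
      exact congrArg Subtype.val (e.injective (Subtype.ext (Subtype.ext hab))))
      fun z hz => ⟨by rw [h2 ⟨z, h1 z hz.1⟩]; exact (e _).1.2, hz.2⟩
    refine (h5 ▸ ⟨hx, fun h6 => hxy ?_⟩ : (⟨x, Or.inl hxH⟩ : ↥((H : Set V) ∪ range c)) ∈ (∅ : Set _))
    simp only at h6
    rw [h2 ⟨⟨x, Or.inl hxH⟩, h1 _ hx⟩, he] at h6
    exact h6.symm

end Pool.Agent.H.MP_5382b1_gt
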